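import Pool.Agent.TH874.BQS.Stm
import Pool.Agent.W53.BQN.LOC

set_option autoImplicit false

open Polynomial

noncomputable section

namespace Pool.Agent.TH149.BQS

open BQ Pool.Agent.W394.BQN Pool.Agent.TH874.BQS

theorem finSucc_map {V K : Type} [CommRing V] [CommRing K] (q : V →+* K) (n : ℕ)
    (f : MvPolynomial (Fin (n + 1)) V) :
    Polynomial.mapRingHom (MvPolynomial.map q : MvPolynomial (Fin n) V →+* MvPolynomial (Fin n) K)
      (MvPolynomial.finSuccEquiv V n f) =
    MvPolynomial.finSuccEquiv K n (MvPolynomial.map q f) := by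
  have h : (Polynomial.mapRingHom
      (MvPolynomial.map q : MvPolynomial (Fin n) V →+* MvPolynomial (Fin n) K)).comp
      (MvPolynomial.finSuccEquiv V n : MvPolynomial (Fin (n + 1)) V →+* (MvPolynomial (Fin n) V)[X])
      = ((MvPolynomial.finSuccEquiv K n :
          MvPolynomial (Fin (n + 1)) K →+* (MvPolynomial (Fin n) K)[X])).comp
        (MvPolynomial.map q) := by
    apply MvPolynomial.ringHom_ext
    · intro r
      simp [MvPolynomial.finSuccEquiv_apply]
    · intro i
      refine Fin.cases ?_ ?_ i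
      · simp [MvPolynomial.finSuccEquiv_apply]
      · intro j
        simp [MvPolynomial.finSuccEquiv_apply]
  exact RingHom.congr_fun h f

theorem det_map_one {A B : Type} [CommRing A] [CommRing B] (f : A →+* B) {s : ℕ}
    (M : Matrix (Fin s) (Fin s) A) (h : M.det = 1) : (M.map f).det = 1 := by
  rw [← RingHom.mapMatrix_apply, ← RingHom.map_det, h, map_one]

theorem dvd_of_map_eq_zero {V : Type} [CommRing V] (π : V) (n : ℕ)
    (f : (MvPolynomial (Fin n) V)[X])
    (hf : Polynomial.mapRingHom
      (MvPolynomial.map (Ideal.Quotient.mk (Ideal.span {π})) :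
        MvPolynomial (Fin n) V →+* MvPolynomial (Fin n) (V ⧸ Ideal.span {π})) f = 0) :
    C (MvPolynomial.C π) ∣ f := by
  rw [Polynomial.C_dvd_iff_dvd_coeff]
  intro i
  rw [MvPolynomial.C_dvd_iff_dvd_coeff]
  intro m
  have h1 := congrArg (fun g => MvPolynomial.coeff m (Polynomial.coeff g i)) hf
  simp only [Polynomial.coe_mapRingHom, Polynomial.coeff_map, MvPolynomial.coeff_map,
    Polynomial.coeff_zero, MvPolynomial.coeff_zero] at h1
  rwa [Ideal.Quotient.eq_zero_iff_mem, Ideal.mem_span_singleton] at h1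

theorem t_SSC (hL : S_LIFT) : S_SSC := by
  intro V _ _ _ π hπ n s N hN
  have hirr : Irreducible π := hπ.irreducible
  have hmax : (Ideal.span {π}).IsMaximal := PrincipalIdealRing.isMaximal_of_irreducible hirr
  have hfield : IsField (V ⧸ Ideal.span {π}) :=
    (Ideal.Quotient.maximal_ideal_iff_isField_quotient _).1 hmax
  have : IsPrincipalIdealRing (V ⧸ Ideal.span {π}) :=
    IsPrincipalIdealRing.of_surjective (Ideal.Quotient.mk (Ideal.span {π}))
      Ideal.Quotient.mk_surjective
  have : IsDomain (V ⧸ Ideal.span {π}) := Ideal.Quotient.isDomain _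
  have : IsLocalRing (V ⧸ Ideal.span {π}) := by
    apply IsLocalRing.of_isUnit_or_isUnit_one_sub_self
    intro a
    by_cases ha : a = 0
    · right; simp [ha]
    · left
      obtain ⟨b, hb⟩ := hfield.mul_inv_cancel ha
      exact IsUnit.of_mul_eq_one b hb
  have hE : E2T (V ⧸ Ideal.span {π}) := Pool.Agent.W53.BQN.t_LOC _
  set q : V →+* V ⧸ Ideal.span {π} := Ideal.Quotient.mk (Ideal.span {π}) with hq
  set φ : (MvPolynomial (Fin n) V)[X] →+* (MvPolynomial (Fin n) (V ⧸ Ideal.span {π}))[X] :=
    Polynomial.mapRingHom (MvPolynomial.map q) with hφ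
  have hφπ : φ (C (MvPolynomial.C π)) = 0 := by
    have : q π = 0 := by
      rw [hq, Ideal.Quotient.eq_zero_iff_mem, Ideal.mem_span_singleton]
    simp [hφ, this]
  have hdet : (N.map φ).det = 1 := by
    rw [← RingHom.mapMatrix_apply, ← RingHom.map_det]
    obtain ⟨c, hc⟩ := hN
    have : N.det = 1 + C (MvPolynomial.C π) * c := by rw [← hc]; ring
    rw [this, map_add, map_one, map_mul, hφπ, zero_mul, add_zero]
  obtain ⟨Δ, hΔ, hΔm⟩ := hL (n + 1) V (V ⧸ Ideal.span {π}) hE q Ideal.Quotient.mk_surjective s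
    ((N.map φ).map ((MvPolynomial.finSuccEquiv (V ⧸ Ideal.span {π}) n).symm :
      (MvPolynomial (Fin n) (V ⧸ Ideal.span {π}))[X] →+*
        MvPolynomial (Fin (n + 1)) (V ⧸ Ideal.span {π}))) (det_map_one _ _ hdet)
  have key : ∀ i j, C (MvPolynomial.C π) ∣
      (MvPolynomial.finSuccEquiv V n (Δ i j)) - N i j := by
    intro i j
    apply dvd_of_map_eq_zero
    rw [map_sub, sub_eq_zero]
    rw [finSucc_map]
    have := congrFun (congrFun hΔm i) j
    simp only [Matrix.map_apply] at this
    rw [this]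
    exact (MvPolynomial.finSuccEquiv (V ⧸ Ideal.span {π}) n).apply_symm_apply _
  choose Z hZ using key
  refine ⟨Δ.map (MvPolynomial.finSuccEquiv V n : MvPolynomial (Fin (n + 1)) V →+*
    (MvPolynomial (Fin n) V)[X]), Matrix.of Z, ?_, ?_⟩
  · exact det_map_one _ _ hΔ
  · ext1 i j
    have := hZ i j
    simp only [Matrix.map_apply, Matrix.add_apply, Matrix.smul_apply, Matrix.of_apply, smul_eq_mul]
    rw [← this]
    simp

end Pool.Agent.TH149.BQS
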